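import Pool.Agent.H97.Heil3

set_option autoImplicit false

namespace Pool.Agent.Results.MP_78c590_co.Generic

open Pool.Agent.H97.Heil

theorem joint :
    (∀ α : ℝ, 0 < α → ∀ F₀ F₁ : Set E, IsFig F₀ → IsFig F₁ → ∀ k : ℕ,
      S α F₀ ≤ k → k ≤ S α F₁ → k ≠ S α F₀ + 1 → ∃ F : Set E, IsFig F ∧ S α F = k) ∧
    (∃ N : Set ℝ, (∀ ε : ℝ, 0 < ε → (N ∩ Set.Ici ε).Finite) ∧
      ∀ α : ℝ, 0 < α → α ∉ N → ∀ F₀ F₁ : Set E, IsFig F₀ → IsFig F₁ → ∀ k : ℕ,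
        S α F₀ ≤ k → k ≤ S α F₁ → ∃ F : Set E, IsFig F ∧ S α F = k) := by
  constructor
  · intro α hα F₀ F₁ f0 f1 k h0 h1 h2
    rcases h0.eq_or_lt with e | h0
    · exact ⟨F₀, f0, e⟩
    obtain ⟨L, bL, hL, fL⟩ := bump hα f0.body ((S_le_iff hα f0.body _).1 le_rfl)
    rw [f0.real] at hL
    exact finish hα bL f1 (by nlinarith) (fL.mono le_rfl subset_rfl (by omega)) h1
  · let A : ℕ → Set ℝ := fun k => {β | 0 < β ∧ ∃ F, IsFig F ∧ Forces β F k}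
    refine ⟨{α | ∃ k, IsLeast (A k) α}, fun ε hε => ?_, fun α hα hN F₀ F₁ f0 f1 k h0 h1 => ?_⟩
    · rcases ({α | ∃ k, IsLeast (A k) α} ∩ Set.Ici ε).eq_empty_or_nonempty with e | hne
      · rw [e]; exact Set.finite_empty
      obtain ⟨_, ⟨_, ⟨_, F, hF, _⟩, _⟩, _⟩ := hne
      obtain ⟨n, -, hn⟩ := exists_forces (half_pos hε) hF.1
      refine Set.Finite.subset (Set.Finite.biUnion (Set.finite_lt_nat n)
        (t := fun k => {α | IsLeast (A k) α}) fun k _ => Set.Subsingleton.finite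
          fun a ha b hb => IsLeast.unique ha hb) ?_
      rintro α ⟨⟨k, hk⟩, hε'⟩
      refine Set.mem_biUnion (x := k) ?_ hk
      by_contra hc
      have hc' : n ≤ k := not_lt.1 hc
      have := hk.2 (show ε / 2 ∈ A k from
        ⟨half_pos hε, F, hF, hn.mono le_rfl subset_rfl hc'⟩)
      have h2 : ε ≤ α := hε'
      linarith
    · have hA : α ∈ A k := ⟨hα, F₀, f0, (S_le_iff hα f0.body _).1 h0⟩
      have : ∃ β ∈ A k, β < α := by
        by_contra hc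
        push Not at hc
        exact hN ⟨k, hA, fun β hβ => hc β hβ⟩
      obtain ⟨β, ⟨_, F, hF, hf⟩, hβ⟩ := this
      exact finish hα hF.body f1 (by rw [hF.real]; linarith) hf h1

theorem result : ∃ N : Set ℝ, (∀ ε : ℝ, 0 < ε → (N ∩ Set.Ici ε).Finite) ∧
    ∀ α : ℝ, 0 < α → α ∉ N → ∀ F₀ F₁ : Set E, IsFig F₀ → IsFig F₁ → ∀ k : ℕ,
      S α F₀ ≤ k → k ≤ S α F₁ → ∃ F : Set E, IsFig F ∧ S α F = k :=
  joint.2

end Pool.Agent.Results.MP_78c590_co.Generic
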